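import Pool.Agent.Q19.NV.Stm

namespace Pool.Agent.Q19.NV

open MvPolynomial Matrix

variable {n k : ℕ} {R R' : Type} [CommRing R] [CommRing R']

theorem mul_map (φ : R →+* R') (x : Ix n k → R) (v : Fin n → Fin k → R) :
    mul (fun p => φ (x p)) (fun s j => φ (v s j)) = fun j => φ (mul x v j) := by
  funext j
  simp only [mul, map_sum, map_mul, map_prod]

theorem act_map (φ : R →+* R') (g h : Matrix (Fin k) (Fin k) R) (x : Ix n k → R) :
    act (g.map φ) (h.map φ) (fun p => φ (x p)) = fun p => φ (act g h x p) := by
  funext p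
  simp only [act, Matrix.mulVec, dotProduct, map_sum, map_mul, Matrix.map_apply]
  refine Finset.sum_congr rfl fun j _ => ?_
  rw [mul_map φ x (fun s l => h l (p.1 s))]

theorem mul_single (x : Ix n k → R) (i : Fin n → Fin k) (j : Fin k) :
    mul x (fun s => Pi.single (i s) 1) j = x (i, j) := by
  classical
  unfold mul
  rw [Finset.sum_eq_single i]
  · simp
  · intro i' _ hne
    obtain ⟨s, hs⟩ := Function.ne_iff.1 hne
    rw [Finset.prod_eq_zero (Finset.mem_univ s), mul_zero]
    show (Pi.single (i s) (1 : R) : Fin k → R) (i' s) = 0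
    rw [Pi.single_apply, if_neg hs]
  · simp

theorem mul_lin (x : Ix n k → R) (c : Fin n → Fin k → R) (w : Fin n → Fin k → Fin k → R) :
    mul x (fun s l => ∑ i, c s i * w s i l) =
      fun j => ∑ i : Fin n → Fin k, (∏ s, c s (i s)) * mul x (fun s => w s (i s)) j := by
  classical
  funext j
  simp only [mul]
  have h1 : ∀ i' : Fin n → Fin k, (∏ s, ∑ i, c s i * w s i (i' s)) =
      ∑ i : Fin n → Fin k, ∏ s, (c s (i s) * w s (i s) (i' s)) := by
    intro i'
    rw [Finset.prod_univ_sum]
    simp [Fintype.piFinset_univ]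
  simp only [h1, Finset.prod_mul_distrib, Finset.mul_sum]
  rw [Finset.sum_comm]
  refine Finset.sum_congr rfl fun i _ => Finset.sum_congr rfl fun i' _ => ?_
  ring

theorem mul_act (g h : Matrix (Fin k) (Fin k) R) (x : Ix n k → R) (v : Fin n → Fin k → R) :
    mul (act g h x) v = g.mulVec (mul x (fun s => h.mulVec (v s))) := by
  classical
  have h1 : (fun s => h.mulVec (v s)) = fun s l => ∑ i, v s i * h l i := by
    funext s l
    simp only [Matrix.mulVec, dotProduct]
    exact Finset.sum_congr rfl fun i _ => mul_comm _ _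
  rw [h1, mul_lin x v (fun _ i l => h l i)]
  funext j
  simp only [mul, act, Matrix.mulVec, dotProduct, Finset.mul_sum, Finset.sum_mul]
  rw [Finset.sum_comm]
  refine Finset.sum_congr rfl fun l _ => ?_
  refine Finset.sum_congr rfl fun i _ => Finset.sum_congr rfl fun i' _ => ?_
  ring

theorem act_act (g h g' h' : Matrix (Fin k) (Fin k) R) (x : Ix n k → R) :
    act g h (act g' h' x) = act (g * g') (h' * h) x := by
  funext p
  have h0 : ∀ s, h'.mulVec (fun l => h l (p.1 s)) = fun l => (h' * h) l (p.1 s) := by
    intro s; funext l; rfl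
  show (g.mulVec (mul (act g' h' x) fun s l => h l (p.1 s))) p.2 = _
  rw [mul_act, Matrix.mulVec_mulVec]
  simp only [h0]
  rfl

theorem act_one (x : Ix n k → R) : act 1 1 x = x := by
  classical
  funext p
  unfold act
  rw [Matrix.one_mulVec]
  have : (fun (s : Fin n) (l : Fin k) => (1 : Matrix (Fin k) (Fin k) R) l (p.1 s)) =
      fun s => Pi.single (p.1 s) 1 := by
    funext s l
    rw [Matrix.one_apply, Pi.single_apply]
  rw [this, mul_single]

theorem mul_smul_arg (x : Ix n k → R) (d : R) (v : Fin n → Fin k → R) :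
    mul x (fun s j => d * v s j) = fun j => d ^ n * mul x v j := by
  funext j
  simp only [mul, Finset.prod_mul_distrib, Finset.prod_const, Finset.card_univ, Fintype.card_fin,
    Finset.mul_sum]
  exact Finset.sum_congr rfl fun i _ => by ring

theorem mul_smul (x : Ix n k → R) (d : R) (v : Fin n → Fin k → R) :
    mul (fun p => d * x p) v = fun j => d * mul x v j := by
  funext j
  simp only [mul, Finset.mul_sum]
  exact Finset.sum_congr rfl fun i _ => by ring

theorem act_smul (g h : Matrix (Fin k) (Fin k) R) (d : R) (x : Ix n k → R) :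
    act g h (fun p => d * x p) = fun p => d * act g h x p := by
  funext p
  simp only [act, mul_smul, Matrix.mulVec, dotProduct, Finset.mul_sum]
  exact Finset.sum_congr rfl fun i _ => by ring

theorem act_smul_right (g h : Matrix (Fin k) (Fin k) R) (d : R) (x : Ix n k → R) :
    act g (d • h) x = fun p => d ^ n * act g h x p := by
  funext p
  have : (fun (s : Fin n) (l : Fin k) => (d • h) l (p.1 s)) = fun s l => d * h l (p.1 s) := by
    funext s l; simp
  simp only [act, this, mul_smul_arg, Matrix.mulVec, dotProduct, Finset.mul_sum]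
  exact Finset.sum_congr rfl fun i _ => by ring

theorem act_smul_left (g h : Matrix (Fin k) (Fin k) R) (d : R) (x : Ix n k → R) :
    act (d • g) h x = fun p => d * act g h x p := by
  funext p
  simp only [act, Matrix.mulVec, dotProduct, Finset.mul_sum, Matrix.smul_apply, smul_eq_mul]
  exact Finset.sum_congr rfl fun i _ => by ring

theorem Lx_map [NeZero k] (A : Finset (Fin n)) (φ : R →+* R') (x : Ix n k → R) (v : Fin k → R) :
    Lx A (fun p => φ (x p)) (fun j => φ (v j)) = fun j => φ (Lx A x v j) := by
  unfold Lx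
  rw [← mul_map φ]
  congr 1
  funext s j
  split_ifs
  · rfl
  · rw [Pi.single_apply, Pi.single_apply]; split_ifs <;> simp
  · rw [Pi.single_apply, Pi.single_apply]; split_ifs <;> simp

theorem Bv_map [NeZero k] (A : Finset (Fin n)) (φ : R →+* R') (x : Ix n k → R) (l : ℕ) :
    Bv A (fun p => φ (x p)) l = fun j => φ (Bv A x l j) := by
  induction l with
  | zero =>
    funext j
    simp only [Bv, Pi.single_apply]
    split_ifs <;> simp
  | succ l ih =>
    simp only [Bv]
    split_ifs
    · funext j
      simp only [Pi.single_apply]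
      split_ifs <;> simp
    · rw [ih, Lx_map]

theorem Bm_map [NeZero k] (A : Finset (Fin n)) (φ : R →+* R') (x : Ix n k → R) :
    Bm A (fun p => φ (x p)) = (Bm A x).map φ := by
  ext j l
  simp only [Bm, Matrix.map_apply]
  rw [Bv_map]

end Pool.Agent.Q19.NV
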