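import Pool.Agent.Q19.NV.Par

namespace Pool.Agent.Q19.NV

open MvPolynomial Matrix

variable {n k : ℕ}

/-- generic structure -/
noncomputable def XX (n k : ℕ) : Ix n k → MvPolynomial (Ix n k) ℂ := fun p => X p

theorem aeval_XX (x : Ix n k → ℂ) : (fun p => aeval x (XX n k p)) = x := by
  funext p; simp [XX]

theorem aeval_det [NeZero k] (A : Finset (Fin n)) (x : Ix n k → ℂ) :
    aeval x (Bm A (XX n k)).det = (Bm A x).det := by
  have h1 := RingHom.map_det (aeval x : MvPolynomial (Ix n k) ℂ →ₐ[ℂ] ℂ).toRingHom (Bm A (XX n k))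
  have h2 := Bm_map A (aeval x : MvPolynomial (Ix n k) ℂ →ₐ[ℂ] ℂ).toRingHom (XX n k)
  have h3 : (fun p => (aeval x : MvPolynomial (Ix n k) ℂ →ₐ[ℂ] ℂ).toRingHom (XX n k p)) = x :=
    aeval_XX x
  rw [h3] at h2
  rw [h2]
  exact h1

theorem aeval_pn [NeZero k] (A C : Finset (Fin n)) (x : Ix n k → ℂ) (t : PP k A C) :
    aeval x (pn A C (XX n k) t) = pn A C x t := by
  have h2 := pn_map A C (aeval x : MvPolynomial (Ix n k) ℂ →ₐ[ℂ] ℂ).toRingHom (XX n k)
  have h3 : (fun p => (aeval x : MvPolynomial (Ix n k) ℂ →ₐ[ℂ] ℂ).toRingHom (XX n k p)) = x :=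
    aeval_XX x
  rw [h3] at h2
  rw [h2]
  rfl

theorem aeval_Bt [NeZero k] (A C : Finset (Fin n)) {σ : Type} (f : PP k A C → MvPolynomial σ ℂ)
    (u : σ → ℂ) : aeval u (Bt A C f).det = (Bt A C (fun p => aeval u (f p))).det := by
  have h1 := RingHom.map_det (aeval u : MvPolynomial σ ℂ →ₐ[ℂ] ℂ).toRingHom (Bt A C f)
  have h2 := Bt_map A C (aeval u : MvPolynomial σ ℂ →ₐ[ℂ] ℂ).toRingHom f
  have h3 : Bt A C (fun p => aeval u (f p)) = (aeval u : MvPolynomial σ ℂ →ₐ[ℂ] ℂ).toRingHom.mapMatrix (Bt A C f) := h2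
  rw [h3]
  exact h1

open Classical in
/-- the parameters with `Bt = 1` -/
noncomputable def t1 [NeZero k] (A C : Finset (Fin n)) : PP k A C → ℂ
  | Sum.inr _ => 0
  | Sum.inl s => if h : IsT A s.1.1 then (if s.1.2 = h.choose then 1 else 0) else 0

theorem Bt_t1 [NeZero k] (hn : 1 ≤ n) (h9 : S_TT_mem) {A C : Finset (Fin n)} (hAC : Disjoint A C)
    (hk : aa A ≤ k) : Bt A C (t1 (k := k) A C) = 1 := by
  ext j l
  rw [Matrix.one_apply]
  unfold Bt
  split_ifs with h1 h2 h3 h4 h5 h6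
  · rfl
  · rfl
  · exfalso; rw [h4] at h3; exact lt_irrefl _ h3.2
  · rfl
  · have hT : IsT A (TT k A (pr l)) := ⟨l, by omega, rfl⟩
    simp only [t1]
    rw [dif_pos hT, hT.choose_eq hn (l := l) (by omega) rfl, if_pos h6]
  · have hT : IsT A (TT k A (pr l)) := ⟨l, by omega, rfl⟩
    simp only [t1]
    rw [dif_pos hT, hT.choose_eq hn (l := l) (by omega) rfl, if_neg h6]
  · exfalso
    rename_i h7
    apply h5
    have h8 := one_le_aa A
    have h7 : (pr l).val = l.val - 1 := rfl
    have h10 : ¬ j < l := fun hlt => h3 ⟨by omega, hlt⟩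
    refine h9 n k A C hAC hk (pr l) j (by rw [h7]; omega) ?_
    rw [Fin.lt_def, h7]
    rw [Fin.lt_def] at h10
    omega
  · exfalso
    rename_i h7
    apply h5
    have h8 := one_le_aa A
    have h7 : (pr l).val = l.val - 1 := rfl
    have h10 : ¬ j < l := fun hlt => h3 ⟨by omega, hlt⟩
    refine h9 n k A C hAC hk (pr l) j (by rw [h7]; omega) ?_
    rw [Fin.lt_def, h7]
    rw [Fin.lt_def] at h10
    omega

/-- the statements which are used -/
structure Hyps : Prop where
  inj : S_std_inj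
  surj : S_std_surj
  adapted : S_adapted
  nil : S_nil
  par : S_par
  flag : S_flag
  recB : S_rec
  mem : S_TT_mem

theorem mem_std_lt {A C : Finset (Fin n)} (i : Fin n → Fin k) (j : Fin k) (h : (i, j) ∈ std k A C) :
    ∀ s, i s < j := by
  classical
  unfold std at h
  rw [Finset.mem_filter] at h
  exact h.2.2.2

theorem lower [NeZero k] (H : Hyps) (hn : 1 ≤ n) {A C : Finset (Fin n)} (hAC : Disjoint A C)
    (hk : aa A ≤ k) :
    ((Fintype.card (PP k A C) : ℕ) : WithBot ℕ∞) ≤ dimension (Nil k A C) := by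
  classical
  obtain ⟨M, hM, hM2, hM3⟩ := exists_ext (k := k) H.inj H.surj hAC
  refine Helper834.EC.dim_ge (Nil k A C) (Bm A (XX n k)).det (pn A C (XX n k))
    {t | (Bt A C t).det ≠ 0} ?_ ?_
  · intro G hG
    refine eq_zero_of_dense G (Bt A C (fun p => (X p : MvPolynomial (PP k A C) ℂ))).det ?_ ?_
    · intro h0
      have h1 := aeval_Bt A C (fun p => (X p : MvPolynomial (PP k A C) ℂ)) (t1 A C)
      rw [h0, map_zero] at h1
      have h2 : (fun p => aeval (t1 A C) (X p : MvPolynomial (PP k A C) ℂ)) = t1 A C := by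
        funext p; simp
      rw [h2, Bt_t1 hn H.mem hAC hk, Matrix.det_one] at h1
      exact zero_ne_one h1
    · intro u hu
      apply hG
      rw [aeval_Bt] at hu
      have h2 : (fun p => aeval u (X p : MvPolynomial (PP k A C) ℂ)) = u := by
        funext p; simp
      rw [h2] at hu
      exact hu
  · intro t ht
    obtain ⟨x, hx, hx1, hx2⟩ := recover hn H.nil H.recB hk M hM hM3 (fun i j h => mem_std_lt i j h)
      (fun m j h h' => H.mem n k A C hAC hk m j h h') t ht
    have hd : (Bm A x).det ≠ 0 := by rw [hx1]; exact ht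
    refine ⟨x, hx, ?_, ?_⟩
    · rw [aeval_det]; exact hd
    · intro p
      rw [aeval_pn, aeval_det, pn_eq A C x hd, hx2]

theorem upper [NeZero k] (H : Hyps) (hn : 1 ≤ n) {A C : Finset (Fin n)} (hAC : Disjoint A C)
    (hk : aa A ≤ k) :
    dimension (Nil k A C) ≤ ((Fintype.card (PP k A C) : ℕ) : WithBot ℕ∞) := by
  classical
  obtain ⟨M, hM, hM2, hM3⟩ := exists_ext (k := k) H.inj H.surj hAC
  have hprime := isPrime (k := k) hn H.inj H.surj H.adapted H.nil hAC
  rw [← Nat.card_eq_fintype_card]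
  -- graph
  set G : Set (PP k A C ⊕ Ix n k → ℂ) :=
    (fun x => Sum.elim (tt A C x) x) '' {x | x ∈ Nil k A C ∧ (Bm A x).det ≠ 0} with hG
  -- generic parameters
  set T : PP k A C → MvPolynomial (PP k A C ⊕ Ix n k) ℂ := fun p => X (Sum.inl p) with hT
  set F : Ix n k → MvPolynomial (PP k A C ⊕ Ix n k) ℂ := fun p =>
    (Bt A C T).det ^ n * X (Sum.inr p) -
      act (Bt A C T) (Bt A C T).adjugate
        (fun p => ∑ s, MvPolynomial.C (M p s) * ct A C T s) p with hF
  have hev : ∀ (t : PP k A C → ℂ) (x : Ix n k → ℂ) (p : Ix n k),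
      aeval (Sum.elim t x) (F p) = (Bt A C t).det ^ n * x p -
        act (Bt A C t) (Bt A C t).adjugate (M.mulVec (ct A C t)) p := by
    intro t x p
    set φ : MvPolynomial (PP k A C ⊕ Ix n k) ℂ →+* ℂ :=
      (aeval (Sum.elim t x) : _ →ₐ[ℂ] ℂ).toRingHom with hφ
    have e0 : (fun p => φ (T p)) = t := by
      funext p; simp [hφ, hT]
    have e1 : Bt A C t = (Bt A C T).map φ := by
      rw [← Bt_map, e0]
    have e2 : (Bt A C t).det = φ (Bt A C T).det := by
      rw [e1]; exact (RingHom.map_det φ _).symm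
    have e3 : (Bt A C t).adjugate = (Bt A C T).adjugate.map φ := by
      rw [e1]; exact (RingHom.map_adjugate φ _).symm
    have e4 : ct A C t = fun s => φ (ct A C T s) := by
      rw [← ct_map, e0]
    have e5 : M.mulVec (ct A C t) = fun p => φ (∑ s, MvPolynomial.C (M p s) * ct A C T s) := by
      funext p
      rw [map_sum]
      simp only [map_mul, Matrix.mulVec, dotProduct, e4]
      refine Finset.sum_congr rfl fun s _ => ?_
      congr 1
      simp [hφ]
    have e6 : act (Bt A C t) (Bt A C t).adjugate (M.mulVec (ct A C t)) p =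
        φ (act (Bt A C T) (Bt A C T).adjugate
        (fun p => ∑ s, MvPolynomial.C (M p s) * ct A C T s) p) := by
      rw [e3, e1, e5, act_map]
    rw [e6, e2]
    show φ (F p) = _
    rw [hF]
    simp only [map_sub, map_mul, map_pow]
    congr 2
    simp [hφ]
  have hkey : ∀ x ∈ Nil k A C, (Bm A x).det ≠ 0 → ∀ p,
      act (Bt A C (tt A C x)) (Bt A C (tt A C x)).adjugate (M.mulVec (ct A C (tt A C x))) p =
        (Bt A C (tt A C x)).det ^ n * x p := by
    intro x hx hd p
    rw [Bt_tt hn H.mem hAC hk, ct_tt hk hd,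
      hM2 _ (tri_of hn H.adapted H.par H.flag hAC hx hd), act_adj hd, act_inv_cancel hd]
  refine Helper834.EC.dim_le G (Set.range F) ?_ ?_ _ hprime ?_
  · rintro _ ⟨x, ⟨hx, hd⟩, rfl⟩ _ ⟨p, rfl⟩
    show aeval (Sum.elim (tt A C x) x) (F p) = 0
    rw [hev, hkey x hx hd, sub_self]
  · rintro _ ⟨x, ⟨hx, hd⟩, rfl⟩
    apply Set.Subsingleton.finite
    have hdet : (Bt A C (tt A C x)).det ≠ 0 := by rw [Bt_tt hn H.mem hAC hk]; exact hd
    have huniq : ∀ y : Ix n k → ℂ, (∀ f ∈ Set.range F, aeval (Sum.elim (tt A C x) y) f = 0) → y = x := by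
      intro y hy
      funext p
      have h1 := hy _ ⟨p, rfl⟩
      rw [hev, hkey x hx hd, ← mul_sub] at h1
      have h2 := (mul_eq_zero.1 h1).resolve_left (pow_ne_zero n hdet)
      exact sub_eq_zero.1 h2
    intro y hy y' hy'
    rw [huniq y hy, huniq y' hy']
  · intro P hP
    have hmul : P * (Bm A (XX n k)).det ∈ vanishingIdeal ℂ (Nil k A C) := by
      intro x hx
      rw [map_mul, aeval_det]
      by_cases hd : (Bm A x).det = 0
      · rw [hd, mul_zero]
      · have h1 := hP x ⟨Sum.elim (tt A C x) x, ⟨x, ⟨hx, hd⟩, rfl⟩, rfl⟩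
        rw [h1, zero_mul]
    rcases hprime.mem_or_mem hmul with h | h
    · exact h
    · exfalso
      have hd1 : (Bt A C (t1 (k := k) A C)).det ≠ 0 := by
        rw [Bt_t1 hn H.mem hAC hk, Matrix.det_one]; exact one_ne_zero
      obtain ⟨x, hx, hx1, hx2⟩ := recover hn H.nil H.recB hk M hM hM3 (fun i j h => mem_std_lt i j h)
        (fun m j h h' => H.mem n k A C hAC hk m j h h') (t1 A C) hd1
      have h2 := h x hx
      rw [aeval_det, hx1] at h2
      exact hd1 h2

end Pool.Agent.Q19.NV
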