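import Pool.Agent.Q19.NV.Dims

namespace Pool.Agent.Q19.NV

open MvPolynomial Matrix

variable {n k : ℕ}

theorem card_QQ (A : Finset (Fin n)) : Fintype.card (QQ k A) =
    ∑ l ∈ Finset.range k, if aa A ≤ l then l else 0 := by
  classical
  rw [Fintype.card_subtype]
  rw [Finset.sum_range (fun l => if aa A ≤ l then l else 0)]
  have h1 : (Finset.univ.filter (fun q : Fin k × Fin k => aa A ≤ q.1.val ∧ q.2 < q.1)).card =
      ∑ l : Fin k, ((Finset.univ.filter (fun q : Fin k × Fin k => aa A ≤ q.1.val ∧ q.2 < q.1)).filter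
        (fun q => q.1 = l)).card := by
    exact Finset.card_eq_sum_card_fiberwise (fun q _ => Finset.mem_univ _)
  rw [h1]
  refine Finset.sum_congr rfl fun l _ => ?_
  split_ifs with h2
  · have : ((Finset.univ.filter (fun q : Fin k × Fin k => aa A ≤ q.1.val ∧ q.2 < q.1)).filter
        (fun q => q.1 = l)) = (Finset.Iio l).map ⟨fun j => (l, j), fun a b h => (Prod.mk.inj h).2⟩ := by
      ext ⟨a, b⟩
      simp only [Finset.mem_filter, Finset.mem_univ, true_and, Finset.mem_map, Finset.mem_Iio,
        Function.Embedding.coeFn_mk, Prod.mk.injEq]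
      constructor
      · rintro ⟨⟨h3, h4⟩, rfl⟩
        exact ⟨b, h4, rfl, rfl⟩
      · rintro ⟨b', h3, rfl, rfl⟩
        exact ⟨⟨h2, h3⟩, rfl⟩
    rw [this, Finset.card_map, Fin.card_Iio]
  · rw [Finset.card_eq_zero]
    ext ⟨a, b⟩
    simp only [Finset.mem_filter, Finset.mem_univ, true_and, Finset.notMem_empty, iff_false]
    rintro ⟨⟨h3, h4⟩, rfl⟩
    exact h2 h3

theorem sum_ge (a k : ℕ) : (∑ l ∈ Finset.range k, if a ≤ l then l else 0) + (min a k).choose 2 =
    k.choose 2 := by
  induction k with
  | zero => simp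
  | succ k ih =>
    rw [Finset.sum_range_succ, Nat.choose_succ_succ' k 1, Nat.choose_one_right, ← ih]
    by_cases h : a ≤ k
    · rw [if_pos h, min_eq_left h, min_eq_left (by omega)]
      ring
    · rw [if_neg h, min_eq_right (by omega : k ≤ a), min_eq_right (by omega : k + 1 ≤ a),
        Nat.choose_succ_succ' k 1, Nat.choose_one_right]
      have h1 : (∑ l ∈ Finset.range k, if a ≤ l then l else 0) = 0 := by
        apply Finset.sum_eq_zero
        intro l hl
        rw [Finset.mem_range] at hl
        rw [if_neg (by omega)]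
      rw [h1]
      ring

theorem aa_choose (A : Finset (Fin n)) : (aa A).choose 2 = A.card.choose 2 := by
  unfold aa
  rcases Nat.lt_or_ge A.card 1 with h | h
  · have : A.card = 0 := by omega
    rw [this]; rfl
  · rw [max_eq_left h]

theorem card_PP (H3 : S_std_card) {A C : Finset (Fin n)} (hAC : Disjoint A C) (hk : aa A ≤ k) :
    Fintype.card (PP k A C) = (∑ m ∈ Finset.range k,
      m.choose A.card * m.multichoose C.card * m ^ (n - A.card - C.card)) +
      (k.choose 2 - A.card.choose 2) := by
  rw [Fintype.card_sum, card_QQ, Fintype.card_coe, H3 n k A C hAC]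
  have h1 := sum_ge (aa A) k
  rw [min_eq_left hk, aa_choose] at h1
  omega

theorem dim_zero_of_eq {x0 : Ix n k → ℂ} {S : Set (Ix n k → ℂ)} (hS : S = {x0}) :
    dimension S = 0 := by
  have hker : vanishingIdeal ℂ S = RingHom.ker (aeval x0 : MvPolynomial (Ix n k) ℂ →ₐ[ℂ] ℂ).toRingHom := by
    ext P
    rw [RingHom.mem_ker, hS]
    constructor
    · intro h; exact h x0 rfl
    · intro h x hx
      rw [Set.mem_singleton_iff.1 hx]; exact h
  have hmax : (vanishingIdeal ℂ S).IsMaximal := by
    rw [hker]
    apply RingHom.ker_isMaximal_of_surjective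
    intro c
    exact ⟨MvPolynomial.C c, by simp⟩
  unfold dimension
  exact ringKrullDim_eq_zero_of_isField
    ((Ideal.Quotient.maximal_ideal_iff_isField_quotient _).1 hmax)

theorem Nil_eq_zero (H : Hyps) (H3 : S_std_card) (hn : 1 ≤ n) {A C : Finset (Fin n)}
    (hAC : Disjoint A C) (hk : k < A.card ∨ k = 0) : Nil k A C = {0} := by
  have hcard : (std k A C).card = 0 := by
    rw [H3 n k A C hAC]
    apply Finset.sum_eq_zero
    intro m hm
    rw [Finset.mem_range] at hm
    rw [Nat.choose_eq_zero_of_lt (by omega)]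
    simp
  rw [Finset.card_eq_zero] at hcard
  have hTri : ∀ y ∈ Tri k A C, y = 0 := by
    intro y hy
    refine H.inj n k A C hAC y hy ?_
    intro p hp
    rw [hcard] at hp
    exact absurd hp (Finset.notMem_empty _)
  have hact : ∀ g h : Matrix (Fin k) (Fin k) ℂ, act g h (0 : Ix n k → ℂ) = 0 := by
    intro g h
    have e1 := act_smul g h 0 (0 : Ix n k → ℂ)
    have e2 : (fun p => (0 : ℂ) * (0 : Ix n k → ℂ) p) = 0 := by funext p; simp
    rw [e2] at e1
    rw [e1]
    funext p; simp
  ext x
  rw [Set.mem_singleton_iff]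
  constructor
  · intro hx
    obtain ⟨g, h, y, -, -, hy, rfl⟩ := H.adapted n k A C x hx
    rw [hTri y hy, hact]
  · rintro rfl
    have h1 := H.nil n k A C hn 1 1 0 (by simp) (by simp) (TriS k A C).zero_mem
    rwa [hact] at h1

theorem dim_formula (H : Hyps) (H3 : S_std_card) (hn : 1 ≤ n) (A C : Finset (Fin n))
    (hAC : Disjoint A C) : dimension (Nil k A C) = (((∑ m ∈ Finset.range k,
      m.choose A.card * m.multichoose C.card * m ^ (n - A.card - C.card)) +
      (k.choose 2 - A.card.choose 2) : ℕ) : WithBot ℕ∞) := by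
  by_cases hk : aa A ≤ k
  · haveI : NeZero k := ⟨by have := one_le_aa A; omega⟩
    rw [← card_PP H3 hAC hk]
    exact le_antisymm (upper H hn hAC hk) (lower H hn hAC hk)
  · have hk' : k < A.card ∨ k = 0 := by
      unfold aa at hk
      rw [max_le_iff] at hk
      omega
    rw [dim_zero_of_eq (Nil_eq_zero H H3 hn hAC hk')]
    have h1 : (∑ m ∈ Finset.range k,
      m.choose A.card * m.multichoose C.card * m ^ (n - A.card - C.card)) = 0 := by
      apply Finset.sum_eq_zero
      intro m hm
      rw [Finset.mem_range] at hm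
      rw [Nat.choose_eq_zero_of_lt (by omega)]
      simp
    have h2 : k.choose 2 - A.card.choose 2 = 0 := by
      rcases hk' with h | h
      · have := Nat.choose_le_choose 2 h.le
        omega
      · subst h; simp
    rw [h1, h2]
    rfl

end Pool.Agent.Q19.NV
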