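import Pool.Agent.Q19.NV.Prime
import Pool.Agent.Helper834.EC.Dim3

namespace Pool.Agent.Q19.NV

open MvPolynomial Matrix

variable {n k : ℕ}

/-- additional parameters: entries of the change of basis above the diagonal -/
abbrev QQ {n : ℕ} (k : ℕ) (A : Finset (Fin n)) : Type :=
  {q : Fin k × Fin k // aa A ≤ q.1.val ∧ q.2 < q.1}

/-- all parameters -/
abbrev PP {n : ℕ} (k : ℕ) (A C : Finset (Fin n)) : Type := (std k A C) ⊕ QQ k A

/-- predecessor -/
def pr {k : ℕ} (l : Fin k) : Fin k := ⟨l.val - 1, by omega⟩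

/-- special tuples -/
def IsT [NeZero k] (A : Finset (Fin n)) (i : Fin n → Fin k) : Prop :=
  ∃ l : Fin k, aa A ≤ l.val ∧ i = TT k A (pr l)

theorem one_le_aa (A : Finset (Fin n)) : 1 ≤ aa A := le_max_right _ _

theorem exists_isLast (hn : 1 ≤ n) (A : Finset (Fin n)) : ∃ s, isLast A s := by
  by_cases hA : A = ∅
  · refine ⟨⟨n - 1, by omega⟩, ?_⟩
    unfold isLast
    rw [if_pos hA]
    show n - 1 + 1 = n
    omega
  · have hne : A.Nonempty := Finset.nonempty_iff_ne_empty.2 hA
    refine ⟨A.max' hne, ?_⟩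
    unfold isLast
    rw [if_neg hA]
    exact ⟨Finset.max'_mem _ _, fun t ht => Finset.le_max' _ _ ht⟩

theorem TT_inj [NeZero k] (hn : 1 ≤ n) (A : Finset (Fin n)) {m m' : Fin k}
    (h : TT k A m = TT k A m') : m = m' := by
  obtain ⟨s, hs⟩ := exists_isLast hn A
  have := congrFun h s
  unfold TT at this
  rwa [if_pos hs, if_pos hs] at this

theorem pr_inj {l l' : Fin k} (hl : 1 ≤ l.val) (hl' : 1 ≤ l'.val) (h : pr l = pr l') : l = l' := by
  have := congrArg Fin.val h
  simp only [pr] at this
  ext; omega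

theorem IsT.choose_eq [NeZero k] (hn : 1 ≤ n) {A : Finset (Fin n)} {i : Fin n → Fin k} (h : IsT A i)
    {l : Fin k} (hl : aa A ≤ l.val) (hi : i = TT k A (pr l)) : h.choose = l := by
  have h1 := h.choose_spec
  have h2 := TT_inj hn A (h1.2.symm.trans hi)
  have h3 := one_le_aa A
  exact pr_inj (h3.trans h1.1) (h3.trans hl) h2

section
variable {R R' : Type} [CommRing R] [CommRing R'] [NeZero k]

open Classical in
/-- change of basis from the parameters -/
noncomputable def Bt (A C : Finset (Fin n)) (t : PP k A C → R) : Matrix (Fin k) (Fin k) R :=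
  fun j l => if l.val < aa A then (if j = l then 1 else 0) else
    if h : aa A ≤ l.val ∧ j < l then t (Sum.inr ⟨(l, j), h⟩) else
    if h : (TT k A (pr l), j) ∈ std k A C then t (Sum.inl ⟨_, h⟩) else 0

open Classical in
/-- standard structure constants from the parameters -/
noncomputable def ct (A C : Finset (Fin n)) (t : PP k A C → R) : std k A C → R :=
  fun s => if h : IsT A s.1.1 then (if s.1.2 = h.choose then 1 else 0) else t (Sum.inl s)

open Classical in
/-- numerators of the parameters -/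
noncomputable def pn (A C : Finset (Fin n)) (x : Ix n k → R) : PP k A C → R
  | Sum.inr q => (Bm A x).det * Bm A x q.1.2 q.1.1
  | Sum.inl s => if h : IsT A s.1.1 then (Bm A x).det * Bm A x s.1.2 h.choose else
      act (Bm A x).adjugate (Bm A x) x s.1

theorem Bt_map (A C : Finset (Fin n)) (φ : R →+* R') (t : PP k A C → R) :
    Bt A C (fun p => φ (t p)) = (Bt A C t).map φ := by
  ext j l
  simp only [Bt, Matrix.map_apply]
  split_ifs <;> simp

theorem ct_map (A C : Finset (Fin n)) (φ : R →+* R') (t : PP k A C → R) :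
    ct A C (fun p => φ (t p)) = fun s => φ (ct A C t s) := by
  funext s
  simp only [ct]
  split_ifs <;> simp

theorem pn_map (A C : Finset (Fin n)) (φ : R →+* R') (x : Ix n k → R) :
    pn A C (fun p => φ (x p)) = fun t => φ (pn A C x t) := by
  have h1 : ((Bm A x).map φ).det = φ (Bm A x).det := (RingHom.map_det φ _).symm
  have h2 : ((Bm A x).map φ).adjugate = (Bm A x).adjugate.map φ := (RingHom.map_adjugate φ _).symm
  funext t
  rcases t with s | q
  · simp only [pn, Bm_map]
    split_ifs
    · rw [h1, map_mul, Matrix.map_apply]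
    · rw [h2, act_map]
  · simp only [pn, Bm_map]
    rw [h1, map_mul, Matrix.map_apply]

end

open Classical in
/-- the parameters of a structure -/
noncomputable def tt [NeZero k] (A C : Finset (Fin n)) (x : Ix n k → ℂ) : PP k A C → ℂ
  | Sum.inr q => Bm A x q.1.2 q.1.1
  | Sum.inl s => if h : IsT A s.1.1 then Bm A x s.1.2 h.choose else act (Bm A x)⁻¹ (Bm A x) x s.1

theorem pn_eq [NeZero k] (A C : Finset (Fin n)) (x : Ix n k → ℂ) (hx : (Bm A x).det ≠ 0)
    (t : PP k A C) : pn A C x t = tt A C x t * (Bm A x).det := by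
  rcases t with s | q
  · simp only [pn, tt]
    split_ifs
    · ring
    · have hu : IsUnit (Bm A x).det := isUnit_iff_ne_zero.2 hx
      have h1 : (Bm A x).adjugate = (Bm A x).det • (Bm A x)⁻¹ := by
        rw [Matrix.inv_def, smul_smul, Ring.mul_inverse_cancel _ hu, one_smul]
      rw [h1, act_smul_left]
      ring
  · simp only [pn, tt]; ring

theorem Bv_low [NeZero k] {R : Type} [CommRing R] (A : Finset (Fin n)) (x : Ix n k → R) (l : Fin k)
    (hl : l.val < aa A) : Bv A x l.val = Pi.single l 1 := by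
  obtain ⟨l, hlk⟩ := l
  cases l with
  | zero =>
    show (Pi.single 0 1 : Fin k → R) = _
    congr 1
  | succ l =>
    show (if l + 1 < aa A then (Pi.single (Fin.ofNat k (l + 1)) 1 : Fin k → R) else _) = _
    rw [if_pos hl]
    congr 1
    ext
    simp [Fin.ofNat, Nat.mod_eq_of_lt hlk]

theorem Bm_low [NeZero k] {R : Type} [CommRing R] (A : Finset (Fin n)) (x : Ix n k → R) (j l : Fin k)
    (hl : l.val < aa A) : Bm A x j l = if j = l then 1 else 0 := by
  show Bv A x l.val j = _
  rw [Bv_low A x l hl, Pi.single_apply]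

theorem Bt_tt [NeZero k] (hn : 1 ≤ n) (h9 : S_TT_mem) {A C : Finset (Fin n)} (hAC : Disjoint A C)
    (hk : aa A ≤ k) (x : Ix n k → ℂ) : Bt A C (tt A C x) = Bm A x := by
  ext j l
  unfold Bt
  split_ifs with h1 h2 h3 h4
  · rw [Bm_low A x j l h1, if_pos h2]
  · rw [Bm_low A x j l h1, if_neg h2]
  · rfl
  · have hT : IsT A (TT k A (pr l)) := ⟨l, by omega, rfl⟩
    simp only [tt]
    rw [dif_pos hT, hT.choose_eq hn (l := l) (by omega) rfl]
  · exfalso
    apply h4
    have h5 := one_le_aa A
    have h6 : ¬ j < l := fun hlt => h3 ⟨by omega, hlt⟩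
    have h7 : (pr l).val = l.val - 1 := rfl
    refine h9 n k A C hAC hk (pr l) j (by rw [h7]; omega) ?_
    rw [Fin.lt_def, h7]
    rw [Fin.lt_def] at h6
    omega

theorem Lx_eq [NeZero k] {R : Type} [CommRing R] (A : Finset (Fin n)) (x : Ix n k → R) (m : Fin k) :
    Lx A x (Pi.single m 1) = fun j => x (TT k A m, j) := by
  funext j
  rw [← mul_single x (TT k A m) j]
  unfold Lx
  congr 1
  funext s
  unfold TT
  split_ifs <;> rfl


/-- F1: the structure in the adapted basis -/
theorem tri_of [NeZero k] (hn : 1 ≤ n) (h4 : S_adapted) (h6 : S_par) (h7 : S_flag)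
    {A C : Finset (Fin n)} (hAC : Disjoint A C) {x : Ix n k → ℂ} (hx : x ∈ Nil k A C)
    (hdet : (Bm A x).det ≠ 0) : act (Bm A x)⁻¹ (Bm A x) x ∈ Tri k A C := by
  obtain ⟨g, h, y0, hgh, hhg, hy0, rfl⟩ := h4 n k A C x hx
  have hu : IsUnit (Bm A (act g h y0)).det := isUnit_iff_ne_zero.2 hdet
  have h1 := h7 n k A C hn hAC g h hgh hhg y0 hy0
  set B := Bm A (act g h y0) with hB
  rw [act_act]
  refine h6 n k A C hn hAC (B⁻¹ * g) (h * B) ?_ ?_ h1 y0 hy0
  · rw [Matrix.mul_assoc, ← Matrix.mul_assoc g h B, hgh, Matrix.one_mul, Matrix.nonsing_inv_mul B hu]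
  · rw [Matrix.mul_assoc, ← Matrix.mul_assoc B B⁻¹ g, Matrix.mul_nonsing_inv B hu, Matrix.one_mul, hhg]

theorem Bm_succ [NeZero k] {R : Type} [CommRing R] (A : Finset (Fin n)) (x : Ix n k → R) (l : Fin k)
    (hl : aa A ≤ l.val) : (fun j => Bm A x j l) = Lx A x (fun j => Bm A x j (pr l)) := by
  have h1 := one_le_aa A
  have h2 : l.val = (pr l).val + 1 := by
    show l.val = l.val - 1 + 1
    omega
  show Bv A x l.val = Lx A x (Bv A x (pr l).val)
  rw [h2]
  have h3 : ¬ (pr l).val + 1 < aa A := by omega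
  show (if (pr l).val + 1 < aa A then _ else _) = _
  rw [if_neg h3]

/-- in the adapted basis the special structure constants are `0` or `1` -/
theorem special [NeZero k] {A : Finset (Fin n)} {x : Ix n k → ℂ} (hak : aa A ≤ k)
    (hdet : (Bm A x).det ≠ 0) (l : Fin k) (hl : aa A ≤ l.val) (j : Fin k) :
    act (Bm A x)⁻¹ (Bm A x) x (TT k A (pr l), j) = if j = l then 1 else 0 := by
  have hu : IsUnit (Bm A x).det := isUnit_iff_ne_zero.2 hdet
  set B := Bm A x with hB
  have h1 : ∀ m : Fin k, B.mulVec (Pi.single m 1) = fun j => B j m := by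
    intro m; funext j
    simp [Matrix.mulVec, dotProduct, Pi.single_apply]
  have h2 : (mul x (fun s l' => B l' (TT k A (pr l) s))) = Lx A x (fun j => B j (pr l)) := by
    unfold Lx
    congr 1
    funext s
    by_cases hs : isLast A s
    · rw [if_pos hs]
      have : TT k A (pr l) s = pr l := by unfold TT; rw [if_pos hs]
      rw [this]
    · rw [if_neg hs]
      have h3 : TT k A (pr l) s = if s ∈ A then Fin.ofNat k (rk A s) else 0 := by
        unfold TT; rw [if_neg hs]
      rw [← h3]
      funext l'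
      have h4 : (TT k A (pr l) s).val < aa A := by
        rw [h3]
        split_ifs with h5
        · have h6 : rk A s < A.card := by
            unfold rk
            apply Finset.card_lt_card
            refine ⟨Finset.filter_subset _ _, fun h => ?_⟩
            have := h h5
            simp at this
          have h7 : A.card ≤ aa A := le_max_left _ _
          show (rk A s) % k < aa A
          exact lt_of_le_of_lt (Nat.mod_le _ _) (lt_of_lt_of_le h6 h7)
        · have := one_le_aa A
          have h8 : (0 : Fin k).val = 0 := by simp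
          rw [h8]
          omega
      rw [hB, Bm_low A x l' _ h4, Pi.single_apply]
  show (B⁻¹.mulVec (mul x (fun s l' => B l' (TT k A (pr l) s)))) j = _
  rw [h2, hB, ← Bm_succ A x l hl, ← hB, ← h1 l, Matrix.mulVec_mulVec, Matrix.nonsing_inv_mul B hu,
    Matrix.one_mulVec, Pi.single_apply]

theorem ct_tt [NeZero k] {A C : Finset (Fin n)} (hak : aa A ≤ k) {x : Ix n k → ℂ}
    (hdet : (Bm A x).det ≠ 0) :
    ct A C (tt A C x) = fun s => act (Bm A x)⁻¹ (Bm A x) x s.1 := by
  funext s
  unfold ct
  split_ifs with h1 h2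
  · have h3 := h1.choose_spec
    have h4 := special hak hdet h1.choose h3.1 s.1.2
    rw [if_pos h2, ← h3.2] at h4
    exact h4.symm
  · have h3 := h1.choose_spec
    have h4 := special hak hdet h1.choose h3.1 s.1.2
    rw [if_neg h2, ← h3.2] at h4
    exact h4.symm
  · simp only [tt]
    rw [dif_neg h1]

theorem act_inv_cancel {B : Matrix (Fin k) (Fin k) ℂ} (hB : B.det ≠ 0) (x : Ix n k → ℂ) :
    act B B⁻¹ (act B⁻¹ B x) = x := by
  have hu : IsUnit B.det := isUnit_iff_ne_zero.2 hB
  rw [act_act, Matrix.mul_nonsing_inv B hu, act_one]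

theorem act_inv_cancel' {B : Matrix (Fin k) (Fin k) ℂ} (hB : B.det ≠ 0) (x : Ix n k → ℂ) :
    act B⁻¹ B (act B B⁻¹ x) = x := by
  have hu : IsUnit B.det := isUnit_iff_ne_zero.2 hB
  rw [act_act, Matrix.nonsing_inv_mul B hu, act_one]

theorem act_adj {B : Matrix (Fin k) (Fin k) ℂ} (hB : B.det ≠ 0) (x : Ix n k → ℂ) (p : Ix n k) :
    act B B.adjugate x p = B.det ^ n * act B B⁻¹ x p := by
  have hu : IsUnit B.det := isUnit_iff_ne_zero.2 hB
  have h1 : B.adjugate = B.det • B⁻¹ := by
    rw [Matrix.inv_def, smul_smul, Ring.mul_inverse_cancel _ hu, one_smul]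
  rw [h1, act_smul_right]

/-- F2 -/
theorem recover [NeZero k] (hn : 1 ≤ n) (h5 : S_nil) (h8 : S_rec)
    {A C : Finset (Fin n)} (hak : aa A ≤ k)
    (M : Matrix (Ix n k) (std k A C) ℂ)
    (hM : ∀ c, M.mulVec c ∈ Tri k A C) (hM3 : ∀ (c : std k A C → ℂ) (s : std k A C), M.mulVec c s.1 = c s)
    (hTm : ∀ (i : Fin n → Fin k) (j : Fin k), (i, j) ∈ std k A C → ∀ s, i s < j)
    (hst : ∀ m j : Fin k, aa A ≤ m.val + 1 → m < j → (TT k A m, j) ∈ std k A C)
    (t : PP k A C → ℂ) (hdet : (Bt A C t).det ≠ 0) :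
    ∃ x ∈ Nil k A C, Bm A x = Bt A C t ∧ tt A C x = t := by
  have hu : IsUnit (Bt A C t).det := isUnit_iff_ne_zero.2 hdet
  set B := Bt A C t with hB
  set y := M.mulVec (ct A C t) with hy
  have hyT : y ∈ Tri k A C := hM _
  have e1 : B * B⁻¹ = 1 := Matrix.mul_nonsing_inv B hu
  have e2 : B⁻¹ * B = 1 := Matrix.nonsing_inv_mul B hu
  have hBm : Bm A (act B B⁻¹ y) = B := by
    refine h8 n k A hn hak B B⁻¹ e1 e2 ?_ y ?_
    · intro l hl j
      rw [hB]
      unfold Bt
      rw [if_pos hl]
    · intro m l hm hl j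
      obtain ⟨s0, hs0⟩ := exists_isLast hn A
      have hTs : TT k A m s0 = m := by unfold TT; rw [if_pos hs0]
      by_cases hj : m < j
      · have h1 := hM3 (ct A C t) ⟨_, hst m j hm hj⟩
        rw [← hy] at h1
        rw [h1]
        have hml : m = pr l := by
          ext; show m.val = l.val - 1; omega
        have hT : IsT A (TT k A m) := ⟨l, by omega, by rw [hml]⟩
        have hT2 : hT.choose = l := hT.choose_eq hn (by omega) (by rw [hml])
        unfold ct
        rw [dif_pos (show IsT A (TT k A m) from hT)]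
        show (if j = hT.choose then (1 : ℂ) else 0) = _
        rw [hT2]
      · have h1 : ¬ j = l := by
          intro h; apply hj; rw [Fin.lt_def, h]; omega
        rw [if_neg h1]
        by_contra h2
        have h3 := hyT.2 _ _ h2 s0
        rw [hTs] at h3
        exact hj h3
  refine ⟨act B B⁻¹ y, h5 n k A C hn B B⁻¹ y e1 e2 hyT, hBm, ?_⟩
  funext τ
  rcases τ with s | q
  · simp only [tt]
    split_ifs with h1
    · have h2 := h1.choose_spec
      rw [hBm, hB]
      have h3 := hTm s.1.1 s.1.2 s.2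
      obtain ⟨s0, hs0⟩ := exists_isLast hn A
      have h4 := h3 s0
      rw [h2.2] at h4
      have hTs : TT k A (pr h1.choose) s0 = pr h1.choose := by unfold TT; rw [if_pos hs0]
      rw [hTs] at h4
      have h5 : h1.choose.val - 1 < s.1.2.val := h4
      have h6 := one_le_aa A
      unfold Bt
      rw [if_neg (by omega), dif_neg (by rw [Fin.lt_def]; omega)]
      have h7 : (TT k A (pr h1.choose), s.1.2) = s.1 := by rw [← h2.2]
      have h8 : (TT k A (pr h1.choose), s.1.2) ∈ std k A C := by rw [h7]; exact s.2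
      rw [dif_pos h8]
      congr 2
      exact Subtype.ext h7
    · rw [hBm, act_inv_cancel' hdet, hy, hM3]
      unfold ct
      rw [dif_neg h1]
  · simp only [tt]
    rw [hBm, hB]
    unfold Bt
    have h1 := q.2.1
    rw [if_neg (by omega), dif_pos q.2]

end Pool.Agent.Q19.NV
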