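import Pool.Agent.Q19.NV.Basic

namespace Pool.Agent.Q19.NV

open MvPolynomial Matrix

variable {n k : ℕ}

theorem ACComm.add {A C : Finset (Fin n)} {x y : Ix n k → ℂ} (hx : ACComm A C x) (hy : ACComm A C y) :
    ACComm A C (x + y) := by
  have h : ∀ v, mul (x + y) v = mul x v + mul y v := by
    intro v; funext j
    simp only [mul, Pi.add_apply, add_mul, Finset.sum_add_distrib]
  refine ⟨fun s hs t ht hst v => ?_, fun s hs t ht v => ?_⟩
  · rw [h, h, hx.1 s hs t ht hst v, hy.1 s hs t ht hst v]; abel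
  · rw [h, h, hx.2 s hs t ht v, hy.2 s hs t ht v]

theorem ACComm.smul {A C : Finset (Fin n)} {x : Ix n k → ℂ} (hx : ACComm A C x) (d : ℂ) :
    ACComm A C (d • x) := by
  have h : ∀ v, mul (d • x) v = d • mul x v := by
    intro v; funext j
    simp only [mul, Pi.smul_apply, smul_eq_mul, Finset.mul_sum]
    exact Finset.sum_congr rfl fun i _ => by ring
  refine ⟨fun s hs t ht hst v => ?_, fun s hs t ht v => ?_⟩
  · rw [h, h, hx.1 s hs t ht hst v]; simp
  · rw [h, h, hx.2 s hs t ht v]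

theorem ACComm.zero (A C : Finset (Fin n)) : ACComm A C (0 : Ix n k → ℂ) := by
  have h : ∀ v, mul (0 : Ix n k → ℂ) v = 0 := by
    intro v; funext j
    simp [mul]
  refine ⟨fun s hs t ht hst v => ?_, fun s hs t ht v => ?_⟩ <;> simp [h]

/-- `Tri` as a submodule -/
def TriS {n : ℕ} (k : ℕ) (A C : Finset (Fin n)) : Submodule ℂ (Ix n k → ℂ) where
  carrier := Tri k A C
  add_mem' := by
    rintro x y ⟨hx1, hx2⟩ ⟨hy1, hy2⟩
    refine ⟨hx1.add hy1, fun i j h s => ?_⟩
    by_cases h1 : x (i, j) = 0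
    · refine hy2 i j ?_ s
      intro h2; apply h; simp [h1, h2]
    · exact hx2 i j h1 s
  zero_mem' := ⟨ACComm.zero A C, fun i j h s => absurd rfl h⟩
  smul_mem' := by
    rintro d x ⟨hx1, hx2⟩
    refine ⟨hx1.smul d, fun i j h s => hx2 i j ?_ s⟩
    intro h1; apply h; simp [h1]

theorem mem_TriS {A C : Finset (Fin n)} {x : Ix n k → ℂ} : x ∈ TriS k A C ↔ x ∈ Tri k A C := Iff.rfl

/-- restriction to the standard indices -/
noncomputable def res (k : ℕ) (A C : Finset (Fin n)) : TriS k A C →ₗ[ℂ] (std k A C → ℂ) :=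
  (LinearMap.funLeft ℂ ℂ (fun s : std k A C => (s : Ix n k))).comp (TriS k A C).subtype

/-- the matrix of the extension of values at standard indices -/
theorem exists_ext (h1 : S_std_inj) (h2 : S_std_surj) {A C : Finset (Fin n)} (hAC : Disjoint A C) :
    ∃ M : Matrix (Ix n k) (std k A C) ℂ, (∀ c, M.mulVec c ∈ Tri k A C) ∧
      (∀ y ∈ Tri k A C, M.mulVec (fun s : std k A C => y s.1) = y) ∧
      (∀ (c : std k A C → ℂ) (s : std k A C), M.mulVec c s.1 = c s) := by
  classical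
  have hinj : Function.Injective (res k A C) := by
    rw [injective_iff_map_eq_zero]
    intro x hx
    apply Subtype.ext
    exact h1 n k A C hAC x.1 x.2 fun p hp => congrFun hx ⟨p, hp⟩
  have hsurj : Function.Surjective (res k A C) := by
    intro c
    obtain ⟨x, hx, hx2⟩ := h2 n k A C hAC (fun p => if h : p ∈ std k A C then c ⟨p, h⟩ else 0)
    refine ⟨⟨x, hx⟩, ?_⟩
    funext s
    have := hx2 s.1 s.2
    rw [dif_pos s.2] at this
    exact this
  let e := LinearEquiv.ofBijective (res k A C) ⟨hinj, hsurj⟩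
  let f : (std k A C → ℂ) →ₗ[ℂ] (Ix n k → ℂ) := (TriS k A C).subtype.comp e.symm.toLinearMap
  have hf : ∀ c, (LinearMap.toMatrix' f).mulVec c = f c := fun c => LinearMap.toMatrix'_mulVec f c
  refine ⟨LinearMap.toMatrix' f, fun c => ?_, fun y hy => ?_, fun c s => ?_⟩
  · rw [hf]; exact (e.symm c).2
  · rw [hf]
    have h3 : e ⟨y, hy⟩ = fun s : std k A C => y s.1 := rfl
    have h4 : f (fun s : std k A C => y s.1) = ((e.symm (e ⟨y, hy⟩) : TriS k A C) : Ix n k → ℂ) := by rw [h3]; rfl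
    rw [h4, LinearEquiv.symm_apply_apply]
  · rw [hf]
    have h5 : e (e.symm c) = c := LinearEquiv.apply_symm_apply e c
    exact congrFun h5 s

/-- a polynomial which vanishes where a nonzero polynomial does not vanish is zero -/
theorem eq_zero_of_dense {τ : Type} (G D : MvPolynomial τ ℂ) (hD : D ≠ 0)
    (h : ∀ u : τ → ℂ, aeval u D ≠ 0 → aeval u G = 0) : G = 0 := by
  have h1 : D * G = 0 := by
    apply MvPolynomial.funext
    intro u
    rw [map_mul, map_zero]
    by_cases h2 : aeval u D = 0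
    · have : eval u D = 0 := by rw [← MvPolynomial.aeval_eq_eval]; exact h2
      rw [this, zero_mul]
    · have : eval u G = 0 := by rw [← MvPolynomial.aeval_eq_eval]; exact h u h2
      rw [this, mul_zero]
  exact (mul_eq_zero.1 h1).resolve_left hD

/-- scaling inside `Nil` -/
theorem adj_act {A C : Finset (Fin n)} (hn : 1 ≤ n) (h5 : S_nil) (g : Matrix (Fin k) (Fin k) ℂ)
    (hg : g.det ≠ 0) {y : Ix n k → ℂ} (hy : y ∈ Tri k A C) : act g g.adjugate y ∈ Nil k A C := by
  have hu : IsUnit g.det := isUnit_iff_ne_zero.2 hg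
  have h1 : g.adjugate = g.det • g⁻¹ := by
    rw [Matrix.inv_def, smul_smul, Ring.mul_inverse_cancel _ hu, one_smul]
  have h2 : act g g.adjugate y = act g g⁻¹ (g.det ^ n • y) := by
    rw [h1, act_smul_right]
    have := act_smul g g⁻¹ (g.det ^ n) y
    exact this.symm
  rw [h2]
  exact h5 n k A C hn g g⁻¹ _ (Matrix.mul_nonsing_inv g hu) (Matrix.nonsing_inv_mul g hu)
    ((TriS k A C).smul_mem _ hy)

/-- generic matrix -/
noncomputable def Gm (k : ℕ) (ι : Type) :
    Matrix (Fin k) (Fin k) (MvPolynomial ((Fin k × Fin k) ⊕ ι) ℂ) :=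
  fun i j => X (Sum.inl (i, j))

/-- generic point of the big parametrisation -/
noncomputable def Psi {ι : Type} [Fintype ι] (M : Matrix (Ix n k) ι ℂ) :
    Ix n k → MvPolynomial ((Fin k × Fin k) ⊕ ι) ℂ :=
  act (Gm k ι) (Gm k ι).adjugate (fun p => ∑ s, MvPolynomial.C (M p s) * X (Sum.inr s))

theorem aeval_Psi {ι : Type} [Fintype ι] (M : Matrix (Ix n k) ι ℂ) (z : (Fin k × Fin k) ⊕ ι → ℂ) :
    (fun p => aeval z (Psi M p)) = act (fun i j => z (Sum.inl (i, j)))
      (Matrix.adjugate (fun i j => z (Sum.inl (i, j)))) (M.mulVec (fun s => z (Sum.inr s))) := by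
  set φ : MvPolynomial ((Fin k × Fin k) ⊕ ι) ℂ →+* ℂ := (aeval z : _ →ₐ[ℂ] ℂ).toRingHom with hφ
  have hg : (Gm k ι).map φ = (fun i j => z (Sum.inl (i, j)) : Matrix (Fin k) (Fin k) ℂ) := by
    ext i j
    simp [Gm, hφ]
  have h1 := act_map φ (Gm k ι) (Gm k ι).adjugate
    (fun p => ∑ s, MvPolynomial.C (M p s) * X (Sum.inr s))
  have h2 : (Gm k ι).adjugate.map φ = ((Gm k ι).map φ).adjugate := by
    have := RingHom.map_adjugate φ (Gm k ι)
    exact this
  rw [h2, hg] at h1
  have h3 : (fun p => φ (∑ s, MvPolynomial.C (M p s) * X (Sum.inr s))) =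
      M.mulVec (fun s => z (Sum.inr s)) := by
    funext p
    simp [hφ, Matrix.mulVec, dotProduct]
  rw [h3] at h1
  exact h1.symm

theorem det_Gm_ne_zero (k : ℕ) (ι : Type) : (Gm k ι).det ≠ 0 := by
  intro h
  have h1 := congrArg (aeval (Sum.elim (fun p : Fin k × Fin k => if p.1 = p.2 then (1 : ℂ) else 0)
    (fun _ : ι => (0 : ℂ)))) h
  rw [map_zero] at h1
  have h2 := RingHom.map_det (aeval (Sum.elim (fun p : Fin k × Fin k => if p.1 = p.2 then (1 : ℂ) else 0)
    (fun _ : ι => (0 : ℂ))) : MvPolynomial ((Fin k × Fin k) ⊕ ι) ℂ →ₐ[ℂ] ℂ).toRingHom (Gm k ι)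
  have h3 : (RingHom.mapMatrix (aeval (Sum.elim (fun p : Fin k × Fin k => if p.1 = p.2 then (1 : ℂ) else 0)
    (fun _ : ι => (0 : ℂ))) : MvPolynomial ((Fin k × Fin k) ⊕ ι) ℂ →ₐ[ℂ] ℂ).toRingHom) (Gm k ι) =
    (1 : Matrix (Fin k) (Fin k) ℂ) := by
    ext i j
    simp [Gm, Matrix.one_apply]
  rw [h3, Matrix.det_one] at h2
  have h4 : (1 : ℂ) = 0 := by
    rw [← h1]; exact h2.symm
  exact one_ne_zero h4

theorem mem_iff (hn : 1 ≤ n) (h1 : S_std_inj) (h2 : S_std_surj) (h4 : S_adapted) (h5 : S_nil)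
    {A C : Finset (Fin n)} (hAC : Disjoint A C) (M : Matrix (Ix n k) (std k A C) ℂ)
    (hM : ∀ c, M.mulVec c ∈ Tri k A C)
    (hM2 : ∀ y ∈ Tri k A C, M.mulVec (fun s : std k A C => y s.1) = y)
    (P : MvPolynomial (Ix n k) ℂ) :
    P ∈ vanishingIdeal ℂ (Nil k A C) ↔ aeval (Psi M) P = 0 := by
  classical
  have key : ∀ z : (Fin k × Fin k) ⊕ (std k A C) → ℂ, aeval z (aeval (Psi M) P) =
      aeval (act (fun i j => z (Sum.inl (i, j)))
      (Matrix.adjugate (fun i j => z (Sum.inl (i, j)))) (M.mulVec (fun s => z (Sum.inr s)))) P := by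
    intro z
    rw [← aeval_Psi]
    have := MvPolynomial.comp_aeval_apply (φ := (aeval z : MvPolynomial ((Fin k × Fin k) ⊕
      (std k A C)) ℂ →ₐ[ℂ] ℂ)) (f := Psi M) (p := P)
    exact this
  constructor
  · intro hP
    refine eq_zero_of_dense _ _ (det_Gm_ne_zero k (std k A C)) fun z hz => ?_
    rw [key]
    refine hP _ (adj_act hn h5 _ ?_ (hM _))
    intro h; apply hz
    have h3 := RingHom.map_det (aeval z : MvPolynomial ((Fin k × Fin k) ⊕
      (std k A C)) ℂ →ₐ[ℂ] ℂ).toRingHom (Gm k (std k A C))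
    have h4 : (RingHom.mapMatrix (aeval z : MvPolynomial ((Fin k × Fin k) ⊕
      (std k A C)) ℂ →ₐ[ℂ] ℂ).toRingHom) (Gm k (std k A C)) =
      ((fun i j => z (Sum.inl (i, j))) : Matrix (Fin k) (Fin k) ℂ) := by
      ext i j
      simp [Gm]
    rw [h4] at h3
    exact h3.trans h
  · intro hP x hx
    obtain ⟨g, h, y, hgh, hhg, hy, rfl⟩ := h4 n k A C x hx
    have hdet : g.det ≠ 0 := by
      intro h0
      have := congrArg Matrix.det hgh
      rw [Matrix.det_mul, h0, zero_mul, Matrix.det_one] at this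
      exact zero_ne_one this
    set d := g.det ^ n with hd
    have hd0 : d ≠ 0 := pow_ne_zero _ hdet
    set y' : Ix n k → ℂ := d⁻¹ • y with hy'
    have hy'T : y' ∈ Tri k A C := (TriS k A C).smul_mem _ hy
    have h6 := key (Sum.elim (fun p => g p.1 p.2) (fun s => y' s.1))
    rw [hP, map_zero] at h6
    have h7 : (fun i j => Sum.elim (fun p : Fin k × Fin k => g p.1 p.2)
      (fun s : std k A C => y' s.1) (Sum.inl (i, j)) : Matrix (Fin k) (Fin k) ℂ) = g := rfl
    have h8 : (M.mulVec (fun s => Sum.elim (fun p : Fin k × Fin k => g p.1 p.2)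
      (fun s : std k A C => y' s.1) (Sum.inr s))) = y' := hM2 y' hy'T
    rw [h7, h8] at h6
    have h9 : g.adjugate = g.det • h := by
      have e1 : g.adjugate = (h * g) * g.adjugate := by rw [hhg, one_mul]
      rw [e1, mul_assoc, Matrix.mul_adjugate, Matrix.mul_smul, mul_one]
    have h10 : act g g.adjugate y' = act g h y := by
      rw [h9, act_smul_right]
      have e2 := act_smul g h d⁻¹ y
      have e3 : act g h y' = fun p => d⁻¹ * act g h y p := e2
      rw [e3]
      funext p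
      show g.det ^ n * (d⁻¹ * act g h y p) = act g h y p
      rw [← mul_assoc, ← hd, mul_inv_cancel₀ hd0, one_mul]
    rw [h10] at h6
    exact h6.symm

theorem isPrime (hn : 1 ≤ n) (h1 : S_std_inj) (h2 : S_std_surj) (h4 : S_adapted) (h5 : S_nil)
    {A C : Finset (Fin n)} (hAC : Disjoint A C) : (vanishingIdeal ℂ (Nil k A C)).IsPrime := by
  obtain ⟨M, hM, hM2, -⟩ := exists_ext (k := k) h1 h2 hAC
  have : vanishingIdeal ℂ (Nil k A C) = RingHom.ker (aeval (Psi M) :
      MvPolynomial (Ix n k) ℂ →ₐ[ℂ] _).toRingHom := by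
    ext P
    rw [mem_iff hn h1 h2 h4 h5 hAC M hM hM2 P, RingHom.mem_ker]
    rfl
  rw [this]
  exact RingHom.ker_isPrime _

end Pool.Agent.Q19.NV
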