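import Pool.Agent.Q19.NV.Stmt

namespace Pool.Agent.Q19.NV

open MvPolynomial

section
variable {n k : ℕ} {R : Type} [CommRing R]

/-- Structure constants of `v ↦ g (mul x (h v_1, …, h v_n))`. -/
def act (g h : Matrix (Fin k) (Fin k) R) (x : Ix n k → R) : Ix n k → R :=
  fun p => g.mulVec (mul x (fun s l => h l (p.1 s))) p.2

/-- strictly triangular structures -/
def Tri {n : ℕ} (k : ℕ) (A C : Finset (Fin n)) : Set (Ix n k → ℂ) :=
  {x | ACComm A C x ∧ ∀ i j, x (i, j) ≠ 0 → ∀ s, i s < j}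

/-- `max |A| 1` -/
def aa (A : Finset (Fin n)) : ℕ := max A.card 1

/-- position of `s` in `A` -/
def rk (A : Finset (Fin n)) (s : Fin n) : ℕ := (A.filter (fun t => t < s)).card

/-- the distinguished argument: the last element of `A`, or the last argument if `A` is empty -/
def isLast (A : Finset (Fin n)) (s : Fin n) : Prop :=
  if A = ∅ then s.val + 1 = n else (s ∈ A ∧ ∀ t ∈ A, t ≤ s)

instance (A : Finset (Fin n)) (s : Fin n) : Decidable (isLast A s) := by
  unfold isLast; infer_instance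

/-- the tuple with `m` in the distinguished position, `0, 1, …` in the other positions of `A` and `0`
in all other positions -/
def TT (k : ℕ) [NeZero k] (A : Finset (Fin n)) (m : Fin k) : Fin n → Fin k :=
  fun s => if isLast A s then m else if s ∈ A then Fin.ofNat k (rk A s) else 0

/-- the operator `v ↦ x(e_{TT}; v in the distinguished position)` -/
def Lx [NeZero k] (A : Finset (Fin n)) (x : Ix n k → R) (v : Fin k → R) : Fin k → R :=
  mul x (fun s => if isLast A s then v else Pi.single (if s ∈ A then Fin.ofNat k (rk A s) else 0) 1)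

/-- `e_0, …, e_{a-1}, L e_{a-1}, L^2 e_{a-1}, …`, `a = max |A| 1` -/
def Bv [NeZero k] (A : Finset (Fin n)) (x : Ix n k → R) : ℕ → Fin k → R
  | 0 => Pi.single 0 1
  | l + 1 => if l + 1 < aa A then Pi.single (Fin.ofNat k (l + 1)) 1 else Lx A x (Bv A x l)

/-- the matrix with the columns `Bv` -/
def Bm [NeZero k] (A : Finset (Fin n)) (x : Ix n k → R) : Matrix (Fin k) (Fin k) R :=
  fun j l => Bv A x l j

/-- standard indices -/
noncomputable def std {n : ℕ} (k : ℕ) (A C : Finset (Fin n)) : Finset (Ix n k) := by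
  classical
  exact Finset.univ.filter (fun p => StrictMonoOn p.1 A ∧ MonotoneOn p.1 C ∧ ∀ s, p.1 s < p.2)

end

/-! ### Lemma statements (jobs) -/

/-- J1: the standard structure constants are coordinates on `Tri`, injectivity. -/
def S_std_inj : Prop := ∀ (n k : ℕ) (A C : Finset (Fin n)), Disjoint A C → ∀ x ∈ Tri k A C,
  (∀ p ∈ std k A C, x p = 0) → x = 0

/-- J2: surjectivity. -/
def S_std_surj : Prop := ∀ (n k : ℕ) (A C : Finset (Fin n)), Disjoint A C → ∀ c : Ix n k → ℂ,
  ∃ x ∈ Tri k A C, ∀ p ∈ std k A C, x p = c p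

/-- J3: the number of standard indices. -/
def S_std_card : Prop := ∀ (n k : ℕ) (A C : Finset (Fin n)), Disjoint A C →
  (std k A C).card = ∑ m ∈ Finset.range k,
    m.choose A.card * m.multichoose C.card * m ^ (n - A.card - C.card)

/-- J4: every nilpotent structure is strictly triangular in some basis. -/
def S_adapted : Prop := ∀ (n k : ℕ) (A C : Finset (Fin n)) (x : Ix n k → ℂ), x ∈ Nil k A C →
  ∃ (g h : Matrix (Fin k) (Fin k) ℂ) (y : Ix n k → ℂ), g * h = 1 ∧ h * g = 1 ∧ y ∈ Tri k A C ∧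
    x = act g h y

/-- J5: strictly triangular structures in any basis are nilpotent. -/
def S_nil : Prop := ∀ (n k : ℕ) (A C : Finset (Fin n)), 1 ≤ n → ∀ (g h : Matrix (Fin k) (Fin k) ℂ)
  (y : Ix n k → ℂ), g * h = 1 → h * g = 1 → y ∈ Tri k A C → act g h y ∈ Nil k A C

/-- J6: a change of basis which preserves the flags `F_l`, `l ≥ max |A| 1`, preserves `Tri`. -/
def S_par : Prop := ∀ (n k : ℕ) (A C : Finset (Fin n)), 1 ≤ n → Disjoint A C →
  ∀ (g h : Matrix (Fin k) (Fin k) ℂ), g * h = 1 → h * g = 1 →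
  (∀ l : Fin k, aa A ≤ l.val → ∀ j : Fin k, j < l → h j l = 0) → ∀ y ∈ Tri k A C, act g h y ∈ Tri k A C

/-- J7: the vectors `Bv` are adapted to the flag. -/
def S_flag : Prop := ∀ (n k : ℕ) [NeZero k] (A C : Finset (Fin n)), 1 ≤ n → Disjoint A C →
  ∀ (g h : Matrix (Fin k) (Fin k) ℂ), g * h = 1 → h * g = 1 → ∀ y ∈ Tri k A C,
  ∀ l : Fin k, aa A ≤ l.val → ∀ j : Fin k, j < l → (h * Bm A (act g h y)) j l = 0

/-- J8: recovering the basis. -/
def S_rec : Prop := ∀ (n k : ℕ) [NeZero k] (A : Finset (Fin n)), 1 ≤ n → aa A ≤ k →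
  ∀ (B B' : Matrix (Fin k) (Fin k) ℂ), B * B' = 1 → B' * B = 1 →
  (∀ l : Fin k, l.val < aa A → ∀ j, B j l = if j = l then 1 else 0) →
  ∀ y : Ix n k → ℂ, (∀ m l : Fin k, aa A ≤ m.val + 1 → l.val = m.val + 1 → ∀ j,
    y (TT k A m, j) = if j = l then 1 else 0) →
  Bm A (act B B' y) = B

/-- J9: the tuples `TT` are standard. -/
def S_TT_mem : Prop := ∀ (n k : ℕ) [NeZero k] (A C : Finset (Fin n)), Disjoint A C → aa A ≤ k →
  ∀ m j : Fin k, aa A ≤ m.val + 1 → m < j → (TT k A m, j) ∈ std k A C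

end Pool.Agent.Q19.NV
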