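import Mathlib

/-!
# Nilpotent `(A,C)`-commutative `n`-ary algebras: definitions used in the statement

An `n`-ary algebra structure on `ℂ^k` is given by its structure constants, a point `x` of the affine
space with the coordinates `Ix n k`.
-/

namespace Pool.Agent.Q19.NV

open MvPolynomial

/-- Indices of the structure constants: `x (i, j)` is the coefficient of `e_j` in the product of
`e_{i 0}, …, e_{i (n-1)}`. -/
abbrev Ix (n k : ℕ) : Type := (Fin n → Fin k) × Fin k

/-- The product of the vectors `v 0, …, v (n-1)` for the structure constants `x`. -/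
def mul {n k : ℕ} {R : Type} [CommRing R] (x : Ix n k → R) (v : Fin n → Fin k → R) : Fin k → R :=
  fun j => ∑ i : Fin n → Fin k, x (i, j) * ∏ s, v s (i s)

/-- The multiplication is anticommutative in the arguments indexed by `A` and commutative in those
indexed by `C`. -/
def ACComm {n k : ℕ} (A C : Finset (Fin n)) (x : Ix n k → ℂ) : Prop :=
  (∀ s ∈ A, ∀ t ∈ A, s ≠ t → ∀ v, mul x (v ∘ Equiv.swap s t) = -mul x v) ∧
  (∀ s ∈ C, ∀ t ∈ C, ∀ v, mul x (v ∘ Equiv.swap s t) = mul x v)

/-- `Mono x d v`: the vector `v` is a monomial with `d` applications of the multiplication. -/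
inductive Mono {n k : ℕ} (x : Ix n k → ℂ) : ℕ → (Fin k → ℂ) → Prop
  | elem (v : Fin k → ℂ) : Mono x 0 v
  | prod (d : Fin n → ℕ) (v : Fin n → Fin k → ℂ) (h : ∀ s, Mono x (d s) (v s)) :
      Mono x (1 + ∑ s, d s) (mul x v)

/-- The algebra is nilpotent: for some `m` all monomials with at least `m` applications of the
multiplication vanish. -/
def Nilpotent {n k : ℕ} (x : Ix n k → ℂ) : Prop :=
  ∃ m : ℕ, ∀ (d : ℕ) (v : Fin k → ℂ), m ≤ d → Mono x d v → v = 0

/-- The variety of nilpotent `(A,C)`-commutative structures on `ℂ^k`. -/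
def Nil {n : ℕ} (k : ℕ) (A C : Finset (Fin n)) : Set (Ix n k → ℂ) :=
  {x | ACComm A C x ∧ Nilpotent x}

/-- The dimension of a Zariski closed subset of an affine space: the Krull dimension of its
coordinate ring. -/
noncomputable def dimension {σ : Type} (X : Set (σ → ℂ)) : WithBot ℕ∞ :=
  ringKrullDim (MvPolynomial σ ℂ ⧸ vanishingIdeal ℂ X)

end Pool.Agent.Q19.NV
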